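import Pool.Agent.Work.MP_59976d_co_odd.Basic

/-!
# Block TR: translates
-/

namespace Pool.Agent.Work.MP_59976d_co

open Finset
open scoped Pointwise

universe u

lemma rs_comm_tr {G : Type*} [AddCommGroup G] [DecidableEq G] (A B : Finset G) :
    rs A B = rs B A := by
  ext x
  rw [mem_rs, mem_rs]
  constructor
  · rintro ⟨a, ha, b, hb, hne, h⟩
    exact ⟨b, hb, a, ha, hne.symm, by rw [add_comm]; exact h⟩
  · rintro ⟨a, ha, b, hb, hne, h⟩
    exact ⟨b, hb, a, ha, hne.symm, by rw [add_comm]; exact h⟩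

/-- The bound of Alon, Nathanson and Ruzsa in a group of odd prime order. -/
lemma anrZ {Z : Type*} [AddCommGroup Z] [DecidableEq Z] (hq : (Nat.card Z).Prime)
    (h2 : Nat.card Z ≠ 2) (X Y : Finset Z) (hX : X.Nonempty) (hY : Y.Nonempty) :
    Nat.card Z ≤ (rs X Y).card ∨ X.card + Y.card ≤ (rs X Y).card + 3 := by
  classical
  set q := Nat.card Z with hqdef
  have : Fact q.Prime := ⟨hq⟩
  have : IsAddCyclic Z := isAddCyclic_of_prime_card (p := q) hqdef.symm
  have e : ZMod q ≃+ Z := zmodAddCyclicAddEquiv inferInstance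
  have hinj := e.symm.injective
  have hrs : rs (X.image e.symm) (Y.image e.symm) = (rs X Y).image e.symm := by
    ext z
    rw [mem_rs, mem_image]
    constructor
    · rintro ⟨a, ha, b, hb, hne, rfl⟩
      rw [mem_image] at ha hb
      obtain ⟨a, ha, rfl⟩ := ha
      obtain ⟨b, hb, rfl⟩ := hb
      exact ⟨a + b, mem_rs.2 ⟨a, ha, b, hb, fun h => hne (by rw [h]), rfl⟩, map_add _ _ _⟩
    · rintro ⟨c, hc, rfl⟩
      rw [mem_rs] at hc
      obtain ⟨a, ha, b, hb, hne, rfl⟩ := hc
      exact ⟨e.symm a, mem_image_of_mem _ ha, e.symm b, mem_image_of_mem _ hb,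
        fun h => hne (hinj h), (map_add _ _ _).symm⟩
  have h := anr' q h2 (X.image e.symm) (Y.image e.symm) (hX.image _) (hY.image _)
  rw [hrs, card_image_of_injective _ hinj, card_image_of_injective _ hinj,
    card_image_of_injective _ hinj] at h
  rcases h with h | h
  · exact Or.inl h
  · right
    split_ifs at h <;> omega

section conn

variable {Z : Type*} [AddCommGroup Z] [Fintype Z] [DecidableEq Z]

lemma conn1 (hq : (Nat.card Z).Prime) (h2 : Nat.card Z ≠ 2) (X Y S : Finset Z)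
    (h : (Xᶜ).card + (Yᶜ).card + (Sᶜ).card + 4 ≤ Nat.card Z) (P Q : Z → Prop)
    (hPQ : ∀ u ∈ X, ∀ v ∈ Y, u ≠ v → u + v ∈ S → (P u ↔ Q v)) (u₀ : Z) (hu₀ : u₀ ∈ X)
    (hP : P u₀) : ∀ u ∈ X, P u := by
  classical
  by_contra hcon
  push Not at hcon
  obtain ⟨u₁, hu₁, hPu₁⟩ := hcon
  have hXc : X.card + (Xᶜ).card = Nat.card Z := by
    rw [Nat.card_eq_fintype_card]; exact card_add_card_compl X
  have hYc : Y.card + (Yᶜ).card = Nat.card Z := by
    rw [Nat.card_eq_fintype_card]; exact card_add_card_compl Y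
  have hX1 : (X.filter P).Nonempty := ⟨u₀, mem_filter.2 ⟨hu₀, hP⟩⟩
  have hX2 : (X.filter (fun u => ¬ P u)).Nonempty := ⟨u₁, mem_filter.2 ⟨hu₁, hPu₁⟩⟩
  have hXs : (X.filter P).card + (X.filter (fun u => ¬ P u)).card = X.card :=
    card_filter_add_card_filter_not P
  have hYs : (Y.filter Q).card + (Y.filter (fun u => ¬ Q u)).card = Y.card :=
    card_filter_add_card_filter_not Q
  have h12 : rs (X.filter P) (Y.filter (fun u => ¬ Q u)) ⊆ Sᶜ := by
    intro z hz
    rw [mem_rs] at hz
    obtain ⟨u, hu, v, hv, hne, rfl⟩ := hz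
    rw [mem_filter] at hu hv
    rw [mem_compl]
    intro hS
    exact hv.2 ((hPQ u hu.1 v hv.1 hne hS).1 hu.2)
  have h21 : rs (X.filter (fun u => ¬ P u)) (Y.filter Q) ⊆ Sᶜ := by
    intro z hz
    rw [mem_rs] at hz
    obtain ⟨u, hu, v, hv, hne, rfl⟩ := hz
    rw [mem_filter] at hu hv
    rw [mem_compl]
    intro hS
    exact hu.2 ((hPQ u hu.1 v hv.1 hne hS).2 hv.2)
  have c12 := card_le_card h12
  have c21 := card_le_card h21
  have p1 := card_pos.2 hX1
  have p2 := card_pos.2 hX2
  have e12 : (Y.filter (fun u => ¬ Q u)).card = 0 ∨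
      Nat.card Z ≤ (rs (X.filter P) (Y.filter (fun u => ¬ Q u))).card ∨
      (X.filter P).card + (Y.filter (fun u => ¬ Q u)).card ≤
        (rs (X.filter P) (Y.filter (fun u => ¬ Q u))).card + 3 := by
    rcases Nat.eq_zero_or_pos (Y.filter (fun u => ¬ Q u)).card with h0 | h0
    · exact Or.inl h0
    · exact Or.inr (anrZ hq h2 _ _ hX1 (card_pos.1 h0))
  have e21 : (Y.filter Q).card = 0 ∨
      Nat.card Z ≤ (rs (X.filter (fun u => ¬ P u)) (Y.filter Q)).card ∨
      (X.filter (fun u => ¬ P u)).card + (Y.filter Q).card ≤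
        (rs (X.filter (fun u => ¬ P u)) (Y.filter Q)).card + 3 := by
    rcases Nat.eq_zero_or_pos (Y.filter Q).card with h0 | h0
    · exact Or.inl h0
    · exact Or.inr (anrZ hq h2 _ _ hX2 (card_pos.1 h0))
  omega

lemma conn2 (hq : (Nat.card Z).Prime) (h2 : Nat.card Z ≠ 2) (X Y S : Finset Z)
    (h : (Xᶜ).card + (Yᶜ).card + (Sᶜ).card + 4 ≤ Nat.card Z) (P Q : Z → Prop)
    (hPQ : ∀ u ∈ X, ∀ v ∈ Y, u ≠ v → u + v ∈ S → (P u ↔ Q (u + v))) (u₀ : Z) (hu₀ : u₀ ∈ X)
    (hP : P u₀) : ∀ u ∈ X, P u := by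
  classical
  by_contra hcon
  push Not at hcon
  obtain ⟨u₁, hu₁, hPu₁⟩ := hcon
  have hXc : X.card + (Xᶜ).card = Nat.card Z := by
    rw [Nat.card_eq_fintype_card]; exact card_add_card_compl X
  have hYc : Y.card + (Yᶜ).card = Nat.card Z := by
    rw [Nat.card_eq_fintype_card]; exact card_add_card_compl Y
  have hSc : S.card + (Sᶜ).card = Nat.card Z := by
    rw [Nat.card_eq_fintype_card]; exact card_add_card_compl S
  have hY : Y.Nonempty := card_pos.1 (by omega)
  have hX1 : (X.filter P).Nonempty := ⟨u₀, mem_filter.2 ⟨hu₀, hP⟩⟩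
  have hX2 : (X.filter (fun u => ¬ P u)).Nonempty := ⟨u₁, mem_filter.2 ⟨hu₁, hPu₁⟩⟩
  have hXs : (X.filter P).card + (X.filter (fun u => ¬ P u)).card = X.card :=
    card_filter_add_card_filter_not P
  have hSs : (S.filter Q).card + (S.filter (fun u => ¬ Q u)).card = S.card :=
    card_filter_add_card_filter_not Q
  have h12 : rs (X.filter P) Y ⊆ (S.filter (fun u => ¬ Q u))ᶜ := by
    intro z hz
    rw [mem_rs] at hz
    obtain ⟨u, hu, v, hv, hne, rfl⟩ := hz
    rw [mem_filter] at hu
    rw [mem_compl, mem_filter]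
    rintro ⟨hS, hQ⟩
    exact hQ ((hPQ u hu.1 v hv hne hS).1 hu.2)
  have h21 : rs (X.filter (fun u => ¬ P u)) Y ⊆ (S.filter Q)ᶜ := by
    intro z hz
    rw [mem_rs] at hz
    obtain ⟨u, hu, v, hv, hne, rfl⟩ := hz
    rw [mem_filter] at hu
    rw [mem_compl, mem_filter]
    rintro ⟨hS, hQ⟩
    exact hu.2 ((hPQ u hu.1 v hv hne hS).2 hQ)
  have c12 := card_le_card h12
  have c21 := card_le_card h21
  have d1 : (S.filter (fun u => ¬ Q u)).card + ((S.filter (fun u => ¬ Q u))ᶜ).card =
      Nat.card Z := by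
    rw [Nat.card_eq_fintype_card]; exact card_add_card_compl _
  have d2 : (S.filter Q).card + ((S.filter Q)ᶜ).card = Nat.card Z := by
    rw [Nat.card_eq_fintype_card]; exact card_add_card_compl _
  have p1 := card_pos.2 hX1
  have p2 := card_pos.2 hX2
  have e12 := anrZ hq h2 _ _ hX1 hY
  have e21 := anrZ hq h2 _ _ hX2 hY
  omega

end conn

section cells

variable {G : Type u} [AddCommGroup G] [Fintype G] [DecidableEq G] {N : AddSubgroup G}

lemma good_cell (hCDH : Stmt_CDH.{u}) {A B : Finset G} (hSS : SS A B) {a b : ℕ} (ha : 1 ≤ a)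
    (hb : 1 ≤ b) {u v : G ⧸ N} (hA : (part N A u).card = a) (hB : (part N B v).card = b)
    (hC : (part N (rs A B) (u + v)).card + 1 = a + b) (huv : u ≠ v) :
    part N A u + part N B v = part N (rs A B) (u + v) ∧
    (part N A u + part N B v).card + 1 = (part N A u).card + (part N B v).card ∧
    (∀ t : G, (∀ z ∈ part N A u + part N B v, t + z ∈ part N A u + part N B v) → t = 0) := by
  have h1 := hCDH G (part N A u) (part N B v) (hSS.mono (part_subset N A u) (part_subset N B v))
    (card_pos.1 (by omega)) (card_pos.1 (by omega))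
  have h2 := part_add_part_subset huv A B
  have h3 := card_le_card h2
  have h4 : part N A u + part N B v = part N (rs A B) (u + v) :=
    eq_of_subset_of_card_le h2 (by omega)
  have h5 : (part N A u + part N B v).card + 1 = (part N A u).card + (part N B v).card := by
    rw [h4, hC, hA, hB]
  exact ⟨h4, h5, h1.2 h5⟩

lemma trans_side (hCDH : Stmt_CDH.{u}) (hUN : Stmt_Uniq.{u})
    [Fintype (G ⧸ N)] [DecidableEq (G ⧸ N)] (hq : (Nat.card (G ⧸ N)).Prime)
    (h2 : Nat.card (G ⧸ N) ≠ 2) {A B : Finset G} (hSS : SS A B) {a b : ℕ}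
    {X Y S : Finset (G ⧸ N)} (ha : 1 ≤ a) (hb : 1 ≤ b)
    (hcard : (Xᶜ).card + (Yᶜ).card + (Sᶜ).card + 4 ≤ Nat.card (G ⧸ N))
    (hA : ∀ u ∈ X, (part N A u).card = a) (hB : ∀ v ∈ Y, (part N B v).card = b)
    (hC : ∀ w ∈ S, (part N (rs A B) w).card + 1 = a + b) :
    ∃ (A₀ : Finset G) (ξ : G ⧸ N → G), ∀ u ∈ X, part N A u = A₀.image (fun z => ξ u + z) := by
  classical
  have hXc : X.card + (Xᶜ).card = Nat.card (G ⧸ N) := by
    rw [Nat.card_eq_fintype_card]; exact card_add_card_compl X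
  obtain ⟨u₀, hu₀⟩ : X.Nonempty := card_pos.1 (by omega)
  have key : ∀ u ∈ X, ∃ t : G, part N A u = (part N A u₀).image (fun z => t + z) := by
    by_cases hb2 : 2 ≤ b
    · refine conn1 hq h2 X Y S hcard
        (fun u => ∃ t : G, part N A u = (part N A u₀).image (fun z => t + z))
        (fun v => ∃ u ∈ X, u ≠ v ∧ u + v ∈ S ∧
          ∃ t : G, part N A u = (part N A u₀).image (fun z => t + z)) ?_ u₀ hu₀ ⟨0, by simp⟩
      intro u hu v hv huv hS
      constructor
      · intro h
        exact ⟨u, hu, huv, hS, h⟩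
      · rintro ⟨u', hu', huv', hS', t, ht⟩
        have g1 := good_cell hCDH hSS ha hb (hA u hu) (hB v hv) (hC _ hS) huv
        have g2 := good_cell hCDH hSS ha hb (hA u' hu') (hB v hv) (hC _ hS') huv'
        have s1 := (hSS.mono (part_subset N A u) (part_subset N B v)).symm
        have s2 := (hSS.mono (part_subset N A u') (part_subset N B v)).symm
        obtain ⟨t', ht'⟩ := hUN G (part N B v) (part N A u') (part N A u) s2 s1
          (by rw [hB v hv]; exact hb2) (by rw [hA u' hu']; exact ha)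
          (by rw [hA u hu, hA u' hu'])
          (by rw [add_comm (part N B v) (part N A u'), g2.2.1, add_comm])
          (by rw [add_comm (part N B v) (part N A u), g1.2.1, add_comm])
        refine ⟨t' + t, ?_⟩
        rw [ht', ht, image_image]
        congr 1
        ext z
        simp only [Function.comp_apply]
        abel
    · have hb1 : b = 1 := by omega
      refine conn2 hq h2 X Y S hcard
        (fun u => ∃ t : G, part N A u = (part N A u₀).image (fun z => t + z))
        (fun w => ∃ t : G, part N (rs A B) w = (part N A u₀).image (fun z => t + z))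
        ?_ u₀ hu₀ ⟨0, by simp⟩
      intro u hu v hv huv hS
      have g1 := good_cell hCDH hSS ha hb (hA u hu) (hB v hv) (hC _ hS) huv
      have hBv := hB v hv
      rw [hb1, card_eq_one] at hBv
      obtain ⟨β, hβ⟩ := hBv
      have g2 : part N (rs A B) (u + v) = (part N A u).image (fun z => β + z) := by
        rw [← g1.1, hβ]
        ext z
        simp only [mem_add, mem_singleton, mem_image]
        constructor
        · rintro ⟨x, hx, y, rfl, rfl⟩
          exact ⟨x, hx, add_comm _ _⟩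
        · rintro ⟨x, hx, rfl⟩
          exact ⟨x, hx, β, rfl, add_comm _ _⟩
      constructor
      · rintro ⟨t, ht⟩
        refine ⟨β + t, ?_⟩
        rw [g2, ht, image_image]
        congr 1
        ext z
        simp only [Function.comp_apply]
        abel
      · rintro ⟨t, ht⟩
        refine ⟨-β + t, ?_⟩
        rw [g2] at ht
        have h3 : part N A u = ((part N A u).image (fun z => β + z)).image (fun z => -β + z) := by
          rw [image_image]
          conv_lhs => rw [← image_id (s := part N A u)]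
          congr 1
          ext z
          simp
        rw [h3, ht, image_image]
        congr 1
        ext z
        simp only [Function.comp_apply]
        abel
  choose t ht using key
  refine ⟨part N A u₀, fun u => if h : u ∈ X then t u h else 0, ?_⟩
  intro u hu
  simp only [dif_pos hu]
  exact ht u hu

end cells

theorem stmt_Trans (hCDH : Stmt_CDH.{u}) (hUN : Stmt_Uniq.{u}) : Stmt_Trans.{u} := by
  intro G _ _ _ N _ _ hq h2 A B hSS a b X Y S ha hb hcard hA hB hC
  classical
  obtain ⟨A₀, ξ, hξ⟩ := trans_side hCDH hUN hq h2 hSS ha hb hcard hA hB hC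
  obtain ⟨B₀, η, hη⟩ := trans_side hCDH hUN hq h2 hSS.symm hb ha
    (by omega : (Yᶜ).card + (Xᶜ).card + (Sᶜ).card + 4 ≤ Nat.card (G ⧸ N)) hB hA
    (fun w hw => by rw [rs_comm_tr, hC w hw, add_comm])
  let Pr : G ⧸ N → (G ⧸ N) × (G ⧸ N) → Prop := fun w p =>
    p.1 ∈ X ∧ p.2 ∈ Y ∧ p.1 ≠ p.2 ∧ p.1 + p.2 = w ∧ w ∈ S
  refine ⟨A₀, B₀, ξ, η, fun w => if h : ∃ p, Pr w p then ξ h.choose.1 + η h.choose.2 else 0,
    hξ, hη, ?_⟩
  intro u hu v hv huv hS
  have hex : ∃ p, Pr (u + v) p := ⟨(u, v), hu, hv, huv, rfl, hS⟩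
  show ξ u + η v = if h : ∃ p, Pr (u + v) p then ξ h.choose.1 + η h.choose.2 else 0
  rw [dif_pos hex]
  obtain ⟨hu', hv', huv', hw', -⟩ := hex.choose_spec
  set u' := hex.choose.1 with hu'def
  set v' := hex.choose.2 with hv'def
  have g1 := good_cell hCDH hSS ha hb (hA u hu) (hB v hv) (hC _ hS) huv
  have g2 := good_cell hCDH hSS ha hb (hA u' hu') (hB v' hv') (hC _ (by rw [hw']; exact hS)) huv'
  rw [← sub_eq_zero]
  apply g1.2.2
  intro z hz
  rw [g1.1, ← hw', ← g2.1, mem_add] at hz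
  obtain ⟨x, hx, y, hy, rfl⟩ := hz
  rw [hξ u' hu', mem_image] at hx
  rw [hη v' hv', mem_image] at hy
  obtain ⟨α, hα, rfl⟩ := hx
  obtain ⟨β, hβ, rfl⟩ := hy
  rw [mem_add]
  refine ⟨ξ u + α, ?_, η v + β, ?_, ?_⟩
  · rw [hξ u hu]
    exact mem_image_of_mem _ hα
  · rw [hη v hv]
    exact mem_image_of_mem _ hβ
  · abel

end Pool.Agent.Work.MP_59976d_co
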